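import Pool.Agent.KS6_46.CF.Forced
import Pool.Agent.KS6_46.CF.Ambient
import Pool.Graph.R_seed8.W924.CF.Meagre

/-!
# The values of `add`, `cofin` and `cof`, and the upper bound `cofin(N) ≤ cf(𝔡)`

* ZFC proves `cofin(M) = add(M)` for the meager ideal.
* ZFC proves `cofin(N) ≤ cf(𝔡)` for the null ideal, where `𝔡` is the dominating number.
* For every cardinal `μ > ℵ₂` with `μ ^ ℵ₁ = μ` there is a ccc notion of forcing which forces
  `add(N) = ℵ₁`, `cofin(N) = ℵ₂ = 𝔡` and `cof(N) = 𝔠 = μ`: it forces the combinatorial sentence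
  `PsiFor K L Ω C` (`PsiHolds P K L Ω C` is its literal translation into the forcing language),
  where `#K = ℵ₁`, `#Ω = ℵ₂`, and `L` is well-ordered of type `μ`; this sentence implies the values.

The notion of forcing is the finite support iteration of the library, of length `ω₂`, over the
index set `μ` for the Cohen reals and the names. The bound `cofin(N) ≤ cf(𝔡)` is new. The null sets
`A` with a cover `A ⊆ {x | ∃^∞ n, x ∈ W n}`, where `W n` only depends on the first `g n`
coordinates and `∑ 2^n μ(W n) < ∞`, form a sigma-ideal `JF g`. For a non-dominating family `F` of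
monotone functions, closed under maxima, the sigma-ideal generated by all `JF g`, `g ∈ F`, does
not contain all null sets: if `h` is not dominated by any member of `F`, then for each countable
subset of `F` there is a monotone upper bound `g` which does not dominate `h`, and the null set of
the `x` which have infinitely often `m` zeroes from the place `h (2 m)` on is not in `JF g`. So
the initial segments of a dominating family of size `𝔡` give a chain of sigma-ideals.
-/

set_option autoImplicit false
set_option linter.deprecated false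

namespace Pool.Agent.Results.MP_145df4_lc.ExactValues

open Cardinal Pool.Agent.W684.CF Pool.Agent.KS6_46.CF Pool.Agent.Helper669.Forcing

/-- (A) ZFC proves `cofin(M) = add(M)` and `cofin(N) ≤ cf(𝔡)`. (B) For every cardinal `μ > ℵ₂` with
`μ ^ ℵ₁ = μ` there are sets `K`, `L`, `Ω`, `C` with `#K = ℵ₁`, `#L = μ`, `#Ω = ℵ₂`, where `L` and
`Ω` are well-ordered and the proper initial segments of `L` have size less than `μ`, and a ccc
notion of forcing `P`, which preserves cardinals, all of whose conditions force the sentence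
`PsiFor K L Ω C`. (C) If `#K = ℵ₁`, `#Ω ≤ ℵ₂`, `L` is well-ordered and `PsiFor K L Ω C` holds, then
`add(N) = ℵ₁`, `cofin(N) = ℵ₂ = 𝔡` and `cof(N) = 𝔠 = #L`. -/
theorem result :
    (cofin MeagerSets = (addNum MeagerSets).ord ∧
      cofin NullSets ≤ dominating.ord.cof.ord) ∧
    (∀ μ : Cardinal.{0}, Cardinal.aleph 2 < μ → μ ^ (ℵ₁ : Cardinal.{0}) = μ →
      ∃ (K L Ω C P : Type) (_ : LinearOrder Ω) (_ : WellFoundedLT Ω) (_ : LinearOrder L)
        (_ : WellFoundedLT L) (_ : Preorder P),
        #K = ℵ₁ ∧ #L = μ ∧ #Ω = Cardinal.aleph 2 ∧ (∀ l : L, #(Set.Iio l) < μ) ∧ Nonempty P ∧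
        (∀ A : Set P, (∀ p ∈ A, ∀ q ∈ A, p ≠ q → ¬ ∃ r, r ≤ p ∧ r ≤ q) → A.Countable) ∧
        (∀ p : P, p ∈ CardinalsPreserved.{0, 0} P) ∧
        ∀ p : P, p ∈ PsiHolds P K L Ω C) ∧
    (∀ (K L Ω C : Type) (_ : LinearOrder Ω) (_ : LinearOrder L) (_ : WellFoundedLT L),
      #K = ℵ₁ → #Ω ≤ Cardinal.aleph 2 → PsiFor K L Ω C →
      addNum NullSets = ℵ₁ ∧ cofin NullSets = (Cardinal.aleph 2).ord ∧
        dominating = Cardinal.aleph 2 ∧ cofNum NullSets = #L ∧ 𝔠 = #L) := by
  refine ⟨⟨Pool.Agent.W924.CF.meagre Pool.Agent.W924.CF.chain Pool.Agent.W924.CF.add_le,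
    cofin_le_cof_dominating⟩, ?_, ?_⟩
  · intro μ h2μ hμ
    obtain ⟨P, hP, hne, hccc, h⟩ := exists_forcing_card μ h2μ hμ
    refine ⟨_, _, _, _, P, inferInstance, inferInstance, inferInstance, inferInstance, hP,
      ?_, ?_, ?_, fun l => ?_, hne, hccc, hccc.cardinalsPreserved, h⟩
    · exact Cardinal.mk_ord_toType _
    · exact Cardinal.mk_ord_toType _
    · exact Cardinal.mk_ord_toType _
    · exact Cardinal.mk_Iio_toType_ord_lt l
  · intro K L Ω C _ _ _ hK hΩ h
    exact values hK hΩ h

end Pool.Agent.Results.MP_145df4_lc.ExactValues
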